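import Pool.Agent.H47.YP.Phi

/-!
# [H47 YP Y1] ABUNDANCE (MP_e49dc9_ag): surjectivity of the restriction to a curve in a large multiple

`Y` a projective surface over a field of characteristic `0`, `A` ample.  `y1`: for `M` large and every curve `C` in the linear system of `M A`: `h⁰(n M A) = h⁰((n - 1) M A) + h⁰(C, n M A)` for ALL
`n ≥ 2`.  `y1_surj`: so the restriction of the sections of `n M A` to the generic member is surjective for `n ≥ 2`.

PROOF.  `h⁰(n A) = e n² / 2 + b n + c` for `n ≥ n₀`.  `M ≥ n₀`: `deg_C (n M A) = e M² n`, `χ(C) = b M - e M² / 2`, and the degree is larger than `- 2 χ(C)` if `n ≥ 2` and `e M > - 2 b`.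
-/

set_option autoImplicit false

namespace Pool.Agent.H47.YP

open Pool.Agent.H54.RV Pool.Agent.H83.TU Pool.Agent.H83.TK Pool.Agent.H24.TK Pool.Agent.H41.TK Pool.Agent.H41.TW

variable {k K : Type} [Field k] [Field K] [Algebra k K] {Y : Mod k K}

theorem y1 {A : Cart Y} (hA : Ample A) {k₀ K₀ : Type} [Field k₀] [Field K₀] [Algebra k₀ K₀] [CharZero k₀]
    {C₀ : Mod k₀ K₀} {φ₀ : Cart Y →* Cart C₀} (h₀ : Cut Y A C₀ φ₀) : ∃ M₀ : ℕ, ∀ M ≥ M₀,
      ∀ {k' K' : Type} [Field k'] [Field K'] [Algebra k' K'] [CharZero k'] {C : Mod k' K'} {φ : Cart Y →* Cart C},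
        Cut Y (A ^ M) C φ → ∀ n ≥ 2, h0 (A ^ (M * n)) 1 = h0 (A ^ (M * n) * (A ^ M)⁻¹) 1 + h0 (φ (A ^ (M * n))) 1 := by
  obtain ⟨e, he⟩ : ∃ e : ℤ, e = dg (φ₀ A) := ⟨_, rfl⟩
  obtain ⟨χ, hχ⟩ : ∃ χ : ℤ, χ = chi C₀ := ⟨_, rfl⟩
  have he0 : 0 < e := by
    rw [he]
    exact dg_ample h₀.crv _ (h₀.amp A hA)
  obtain ⟨n₀, hn₀⟩ := cut_eq h₀ 1 hA
  obtain ⟨c, hc⟩ := sum_lin (f := fun m => (h0 (A ^ m) 1 : ℝ)) (a := e) (b := e + χ) (n₀ := n₀) (fun n hn => by
    have h1 := hn₀ (n + 1) (by omega)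
    have e1 : (1 : Cart Y) * A ^ (n + 1) * A⁻¹ = A ^ n := by
      rw [one_mul, pow_succ, mul_inv_cancel_right]
    rw [e1, one_mul, map_one, dg_one, ← he, ← hχ] at h1
    push_cast at h1
    rw [h1]
    ring)
  refine ⟨n₀ + (|2 * χ + e| + 1).toNat, fun M hM {k' K'} _ _ _ _ {C φ} hC n hn => ?_⟩
  have hM1 : n₀ ≤ M := by omega
  have hM2 : |2 * χ + e| + 1 ≤ (M : ℤ) := (Int.self_le_toNat _).trans (by exact_mod_cast (by omega))
  have hM3 : (1 : ℤ) ≤ M := by
    have := abs_nonneg (2 * χ + e)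
    omega
  have hMr : (1 : ℝ) ≤ M := by exact_mod_cast hM3
  obtain ⟨δ, hδ⟩ : ∃ δ : ℤ, δ = dg (φ A) := ⟨_, rfl⟩
  -- the numbers of the curve
  obtain ⟨n₁, hn₁⟩ := cut_eq hC 1 hA
  have h1 := lin_eq (N := n₀ + n₁ + M) (a := -(e / 2 : ℝ) * M ^ 2 + (χ + e / 2) * M) (b := e * M) (a' := chi C) (b' := δ)
    (fun m hm => by
      have h2 := hn₁ m (by omega)
      have e1 : (1 : Cart Y) * A ^ m * (A ^ M)⁻¹ = A ^ (m - M) := by
        rw [one_mul, mul_inv_eq_iff_eq_mul, ← pow_add]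
        congr 1
        omega
      rw [e1, one_mul, map_one, dg_one, ← hδ] at h2
      have h3 := hc m (by omega)
      have h4 := hc (m - M) (by omega)
      rw [Nat.cast_sub (by omega)] at h4
      rw [h3, h4] at h2
      push_cast at h2
      linarith)
  have hχ' : (chi C : ℝ) = -(e / 2 : ℝ) * M ^ 2 + (χ + e / 2) * M := h1.1.symm
  have hδ' : δ = e * M := by
    have := h1.2
    exact_mod_cast this.symm
  have h2 : dg (φ (A ^ (M * n))) = M * n * δ := by
    rw [map_pow, dg_pow hC.crv, ← hδ]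
    push_cast
    ring
  have hχi : 2 * chi C = - e * M ^ 2 + (2 * χ + e) * M := by
    have : (2 * chi C : ℝ) = - e * M ^ 2 + (2 * χ + e) * M := by
      rw [hχ']
      ring
    exact_mod_cast this
  have h3 := h0_eq hC.crv (φ (A ^ (M * n))) (by
    rw [h2, hδ']
    have h4 : -2 * chi C = e * M ^ 2 - (2 * χ + e) * M := by linarith
    rw [h4]
    have h5 : -(2 * χ + e) < e * M := by
      have h6 := neg_abs_le (2 * χ + e)
      nlinarith
    have hn2 : (2 : ℤ) ≤ n := by exact_mod_cast hn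
    have h6 : -(2 * χ + e) * M < e * M * M := mul_lt_mul_of_pos_right h5 (by linarith)
    have h7 : e * M * M * 2 ≤ e * M * M * n := mul_le_mul_of_nonneg_left hn2 (by positivity)
    nlinarith)
  have e1 : A ^ (M * n) * (A ^ M)⁻¹ = A ^ (M * (n - 1)) := by
    rw [mul_inv_eq_iff_eq_mul, ← pow_add]
    congr 1
    obtain ⟨i, rfl⟩ : ∃ i, n = i + 1 := ⟨n - 1, by omega⟩
    rw [Nat.add_sub_cancel, Nat.mul_succ]
  have hn1 : n₀ ≤ M * (n - 1) := by
    have : M * 1 ≤ M * (n - 1) := Nat.mul_le_mul_left M (by omega)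
    omega
  have h4 := hc (M * n) (by
    have : M * 1 ≤ M * n := Nat.mul_le_mul_left M (by omega)
    omega)
  have h5 := hc (M * (n - 1)) hn1
  rw [e1]
  have h6 : (h0 (A ^ (M * n)) 1 : ℝ) = h0 (A ^ (M * (n - 1))) 1 + h0 (φ (A ^ (M * n))) 1 := by
    have h7 : (h0 (φ (A ^ (M * n))) 1 : ℝ) = M * n * (e * M) + chi C := by
      have : (h0 (φ (A ^ (M * n))) 1 : ℝ) = ((h0 (φ (A ^ (M * n))) 1 : ℤ) : ℝ) := by norm_cast
      rw [this, h3, h2, hδ']
      push_cast
      ring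
    rw [h4, h5, h7, hχ']
    push_cast
    rw [Nat.cast_sub (by omega)]
    push_cast
    ring
  exact_mod_cast h6

variable {k' K' : Type} [Field k'] [Field K'] [Algebra k k'] [Algebra K K'] [Algebra k' K'] [Algebra k K']
  [IsScalarTower k K K'] [IsScalarTower k k' K'] {σ : Type} [Fintype σ] {l : σ → k'}

/-- from the dimensions to the surjectivity -/
theorem surj_of [CharZero k] [T0Space Y.P] (hY : IsVar Y) (hg : ∃ g, Gen Y g) (hA : ∃ A : Cart Y, Ample A)
    (h : BC k K k' K' l) {D : Cart Y} {s : Option σ → K} {z : (bcM Y h).P}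
    (hsl : gsec K' l s ≠ 0) (hS : SPr (bcM Y h) z (bcD hY hg h D * prin (bcM Y h) (gsec K' l s) hsl)) {W : Cart Y}
    (hW : h0 W 1 = h0 (W * D⁻¹) 1 + h0 (resD (isVar_bc hY hg h) z (bcD hY hg h W)) 1) :
    Function.Surjective (resS (isVar_bc hY hg h) z (bcD hY hg h W) 1) := by
  obtain ⟨A, hA⟩ := hA
  have hV' := isVar_bc hY hg h
  have hchar : CharZero k' := charZero_of_injective_algebraMap (algebraMap k k').injective
  have hgC : ∃ g, Gen (subM hV' z) g := ⟨_, gen_sub hV' z⟩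
  have e1 : ∀ W : Cart Y, FiniteDimensional k' (secL (bcD hY hg h W) 1) ∧ h0 (bcD hY hg h W) 1 = h0 W 1 := fun W => by
    have : FiniteDimensional k (secL W 1) := fd hY hg hA W
    exact bc_h0 hY hg h W 1
  have e2 : FiniteDimensional k' (secL (resD hV' z (bcD hY hg h W)) 1) :=
    fd (isVar_sub hV' z) hgC (res_ample hV' z _ (bc_ample hY hg h _ hA)) _
  have := (e1 W).1
  have h1 := ex_dim hV' hS (bcD hY hg h W) 1
  rw [h0_div_prin, pow_one, ← map_inv, ← map_mul, (e1 _).2, (e1 _).2, hW] at h1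
  have h2 : Module.finrank k' (LinearMap.range (resS hV' z (bcD hY hg h W) 1)) =
      Module.finrank k' (secL (resD hV' z (bcD hY hg h W)) 1) := by
    have h3 : h0 (resD hV' z (bcD hY hg h W)) 1 = Module.finrank k' (secL (resD hV' z (bcD hY hg h W)) 1) := rfl
    omega
  exact LinearMap.range_eq_top.1 (Submodule.eq_top_of_finrank_eq h2)

/-- **surjectivity on the generic member of a large multiple** -/
theorem y1_surj [CharZero k] [T0Space Y.P] (hY : IsVar Y) (hg : ∃ g, Gen Y g) (htr : Algebra.trdeg k K = 2) {A : Cart Y}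
    (hA : Ample A) {k₀ K₀ : Type} [Field k₀] [Field K₀] [Algebra k₀ K₀] [CharZero k₀] {C₀ : Mod k₀ K₀}
    {φ₀ : Cart Y →* Cart C₀} (h₀ : Cut Y A C₀ φ₀) : ∃ M₀ : ℕ, ∀ M ≥ M₀,
      ∀ {k' K' : Type} [Field k'] [Field K'] [Algebra k k'] [Algebra K K'] [Algebra k' K'] [Algebra k K']
        [IsScalarTower k K K'] [IsScalarTower k k' K'] {σ : Type} [Fintype σ] {l : σ → k'} (h : BC k K k' K' l)
        {s : Option σ → K} {z : (bcM Y h).P} (hsl : gsec K' l s ≠ 0)
        (_ : SPr (bcM Y h) z (bcD hY hg h (A ^ M) * prin (bcM Y h) (gsec K' l s) hsl))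
        (_ : Algebra.trdeg k' ((bcM Y h).kap z) + 1 = Algebra.trdeg k K), ∀ n ≥ 2,
        Function.Surjective (resS (isVar_bc hY hg h) z (bcD hY hg h (A ^ (M * n))) 1) := by
  obtain ⟨M₀, hM₀⟩ := y1 hA h₀
  refine ⟨M₀, fun M hM {k' K'} _ _ _ _ _ _ _ _ {σ} _ {l} h {s z} hsl hS hz n hn => ?_⟩
  have hchar : CharZero k' := charZero_of_injective_algebraMap (algebraMap k k').injective
  exact surj_of hY hg ⟨A, hA⟩ h hsl hS (hM₀ M hM (gen_cut hY hg htr ⟨A, hA⟩ h hsl hS hz) n hn)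

end Pool.Agent.H47.YP
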