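import Pool.Agent.H47.YP.Lsy
import Pool.Agent.H47.YP.Y1

/-!
# [H47 YP Tor] ABUNDANCE (MP_e49dc9_ag): torsion twists

`D` a divisor on the surface `Y` with `h⁰(V + t D) = h⁰(V)` for all `V` (`t ≥ 1`), for example a torsion divisor.
`tor`: `h⁰(D + V + m A) = h⁰(V + m A)` for `m ≥ m₀(V)`.  `tor_dg`: the degree of `D` on all curves is `0`.  `asy_tw`: (AS) for `D + j W + m A`.  `y1_tw`, `y1_tw_surj`: (Y1) for `D + n A`, `n ≥ 2`.

PROOF of `tor`.  `h⁰(i D + V + m A) = α m² + (β + i τ) m + e i` for large `m`; a curve in the linear system of `D + n A` (`ex_cut_tw`): `e (i + 1) - e i` is linear in `i`; `e (i + t) = e i`.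
-/

set_option autoImplicit false

namespace Pool.Agent.H47.YP

open Pool.Agent.H54.RV Pool.Agent.H83.TU Pool.Agent.H83.TK Pool.Agent.H24.TK Pool.Agent.H41.TK Pool.Agent.H41.TW

variable {k K : Type} [Field k] [Field K] [Algebra k K] {Y : Mod k K}

/-- the degree of a torsion divisor -/
theorem tor_dg {A D : Cart Y} (hA : Ample A) {t : ℕ} (ht : 1 ≤ t) (hD : ∀ V : Cart Y, h0 (V * D ^ t) 1 = h0 V 1)
    {k' K' : Type} [Field k'] [Field K'] [Algebra k' K'] [CharZero k'] {C : Mod k' K'} {φ : Cart Y →* Cart C} {E : Cart Y}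
    (hC : Cut Y E C φ) : dg (φ D) = 0 := by
  obtain ⟨n₁, hn₁⟩ := cut_eq hC 1 hA
  obtain ⟨n₂, hn₂⟩ := cut_eq hC (D ^ t) hA
  have h1 := hn₁ (max n₁ n₂) (le_max_left _ _)
  have h2 := hn₂ (max n₁ n₂) (le_max_right _ _)
  have e1 : D ^ t * A ^ (max n₁ n₂) = A ^ (max n₁ n₂) * D ^ t := mul_comm _ _
  have e2 : A ^ (max n₁ n₂) * D ^ t * E⁻¹ = A ^ (max n₁ n₂) * E⁻¹ * D ^ t := mul_right_comm _ _ _
  rw [e1, hD, e2, hD, map_pow, dg_pow hC.crv] at h2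
  rw [one_mul, map_one, dg_one] at h1
  have h3 : ((t * dg (φ D) : ℤ) : ℝ) = 0 := by
    push_cast at h1 h2 ⊢
    linarith
  have h4 : (t : ℤ) * dg (φ D) = 0 := by exact_mod_cast h3
  rcases mul_eq_zero.1 h4 with h5 | h5
  · have : t = 0 := by exact_mod_cast h5
    omega
  · exact h5

private theorem cg {G : Type} [CommGroup G] (p D V a a' : G) : p * D * V * (a * a') = p * (V * a) * (D * a') := by
  rw [mul_assoc p D V, mul_assoc p, mul_assoc p, mul_mul_mul_comm V a D a', mul_comm D V]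

theorem tor [CharZero k] [T0Space Y.P] (hY : IsVar Y) (hg : ∃ g, Gen Y g) (htr : Algebra.trdeg k K = 2)
    {A D : Cart Y} (hA : Ample A) {t : ℕ} (ht : 1 ≤ t) (hD : ∀ V : Cart Y, h0 (V * D ^ t) 1 = h0 V 1)
    {k' K' : Type} [Field k'] [Field K'] [Algebra k' K'] [CharZero k'] {C : Mod k' K'} {φ : Cart Y →* Cart C}
    (hC : Cut Y A C φ) (V : Cart Y) : ∃ m₀ : ℕ, ∀ m ≥ m₀, h0 (D * (V * A ^ m)) 1 = h0 (V * A ^ m) 1 := by
  obtain ⟨d₀, hd₀⟩ : ∃ d₀ : ℝ, d₀ = dg (φ A) := ⟨_, rfl⟩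
  obtain ⟨b, hb⟩ : ∃ b : ℝ, b = d₀ / 2 + dg (φ V) + chi C := ⟨_, rfl⟩
  have hτ := tor_dg hA ht hD hC
  have f1 : ∀ i : ℕ, ∃ (e : ℝ) (m₀ : ℕ), ∀ m ≥ m₀, (h0 (D ^ i * (V * A ^ m)) 1 : ℝ) = d₀ / 2 * m ^ 2 + b * m + e := by
    intro i
    obtain ⟨n₀, hn₀⟩ := cut_eq hC (D ^ i * V) hA
    obtain ⟨c, hc⟩ := sum_lin (f := fun m => (h0 (D ^ i * (V * A ^ m)) 1 : ℝ)) (a := d₀) (b := d₀ + dg (φ V) + chi C) (n₀ := n₀)
      (fun n hn => by
        have h1 := hn₀ (n + 1) (by omega)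
        have e1 : D ^ i * V * A ^ (n + 1) * A⁻¹ = D ^ i * (V * A ^ n) := by
          rw [pow_succ, ← mul_assoc, mul_inv_cancel_right, mul_assoc]
        rw [e1, map_mul, map_pow, dg_mul hC.crv, dg_pow hC.crv, hτ, mul_assoc] at h1
        push_cast at h1
        rw [← hd₀] at h1
        rw [h1]
        ring)
    refine ⟨c, n₀, fun m hm => ?_⟩
    rw [hc m hm, hb]
    ring
  choose e he using f1
  obtain ⟨n, k₁, K₁, _, _, _, _, C₁, φ₁, hn, hC₁⟩ := ex_cut_tw hY hg htr hA D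
  have hτ₁ := tor_dg hA ht hD hC₁
  obtain ⟨q, hq⟩ : ∃ q : ℝ, ∀ i : ℕ, e (i + 1) = e i + q := by
    obtain ⟨dA, hdA⟩ : ∃ x : ℝ, x = dg (φ₁ A) := ⟨_, rfl⟩
    obtain ⟨dV, hdV⟩ : ∃ x : ℝ, x = dg (φ₁ V) := ⟨_, rfl⟩
    refine ⟨dV + n * dA + chi C₁ - d₀ / 2 * n ^ 2 - b * n, fun i => ?_⟩
    obtain ⟨n₀, hn₀⟩ := cut_eq hC₁ (D ^ (i + 1) * V) hA
    obtain ⟨m₁, hm₁⟩ := he (i + 1)
    obtain ⟨m₂, hm₂⟩ := he i
    have h1 := lin_eq (N := max n₀ (max m₁ m₂)) (a := d₀ / 2 * n ^ 2 + b * n + e (i + 1) - e i)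
      (b := d₀ * n) (a' := dV + n * dA + chi C₁) (b' := dA) (fun m hm => by
      rw [max_le_iff, max_le_iff] at hm
      have h1 := hn₀ (m + n) (by omega)
      have h2 := hm₁ (m + n) (by omega)
      have h3 := hm₂ m (by omega)
      have e1 : D ^ (i + 1) * V * A ^ (m + n) * (D * A ^ n)⁻¹ = D ^ i * (V * A ^ m) := by
        rw [mul_inv_eq_iff_eq_mul, pow_succ, pow_add]
        exact cg _ _ _ _ _
      rw [e1, map_mul, map_pow, dg_mul hC₁.crv, dg_pow hC₁.crv, hτ₁, mul_assoc (D ^ (i + 1)), h2, h3] at h1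
      push_cast at h1
      rw [← hdA, ← hdV] at h1
      linarith)
    have h2 := h1.1
    linarith
  have hE : ∀ i : ℕ, e i = e 0 + i * q := by
    intro i
    induction i with
    | zero => simp
    | succ i ih =>
      rw [hq, ih]
      push_cast
      ring
  have h0t : e t = e 0 := by
    obtain ⟨m₁, hm₁⟩ := he t
    obtain ⟨m₂, hm₂⟩ := he 0
    have h1 := hm₁ (max m₁ m₂) (le_max_left _ _)
    have h2 := hm₂ (max m₁ m₂) (le_max_right _ _)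
    rw [mul_comm, hD] at h1
    rw [pow_zero, one_mul] at h2
    linarith
  have hq0 : q = 0 := by
    rw [hE t] at h0t
    have h1 : (t : ℝ) * q = 0 := by linarith
    rcases mul_eq_zero.1 h1 with h2 | h2
    · have : t = 0 := by exact_mod_cast h2
      omega
    · exact h2
  obtain ⟨m₁, hm₁⟩ := he 1
  obtain ⟨m₂, hm₂⟩ := he 0
  refine ⟨max m₁ m₂, fun m hm => ?_⟩
  rw [ge_iff_le, max_le_iff] at hm
  have h1 := hm₁ m hm.1
  have h2 := hm₂ m hm.2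
  have h3 := hq 0
  rw [zero_add, hq0, add_zero] at h3
  rw [pow_one] at h1
  rw [pow_zero, one_mul] at h2
  have h4 : (h0 (D * (V * A ^ m)) 1 : ℝ) = h0 (V * A ^ m) 1 := by rw [h1, h2, h3]
  exact_mod_cast h4

/-- **(AS) with a torsion twist** -/
theorem asy_tw [CharZero k] [T0Space Y.P] (hY : IsVar Y) (hg : ∃ g, Gen Y g) (htr : Algebra.trdeg k K = 2)
    {A W D : Cart Y} (hAW : ∀ i : ℕ, Ample (A * W ^ i)) {t : ℕ} (ht : 1 ≤ t) (hD : ∀ V : Cart Y, h0 (V * D ^ t) 1 = h0 V 1)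
    {k' K' : Type} [Field k'] [Field K'] [Algebra k' K'] [CharZero k']
    {C : Mod k' K'} {φ : Cart Y →* Cart C} (hC : Cut Y A C φ) {α β κ : ℝ}
    (hub : ∀ i : ℕ, ∃ B : ℝ, ∃ t₀ : ℕ, ∀ t ≥ t₀, (h0 ((A * W ^ i) ^ t) 1 : ℝ) ≤ (α + i * β) * t ^ 2 + B * t + B)
    (hlb : ∀ i : ℕ, ∃ B : ℝ, ∃ t₀ : ℕ, ∀ t ≥ t₀, (α + i * β) * t ^ 2 - κ * t - B ≤ (h0 ((A * W ^ i) ^ t) 1 : ℝ)) :
    (dg (φ A) : ℝ) = 2 * α ∧ (dg (φ W) : ℝ) = β ∧ dg (φ D) = 0 ∧ ∃ M : ℕ, 1 ≤ M ∧ ∀ j : ℕ, ∃ m₀ : ℕ, ∀ m ≥ m₀,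
      (h0 (D * A ^ m) 1 : ℝ) + j * M * m * dg (φ W) ≤ h0 (D * (W ^ (j * M) * A ^ m)) 1 := by
  have hA : Ample A := by simpa using hAW 0
  obtain ⟨h1, h2, M, hM, h3⟩ := asy hY hg htr hAW hC hub hlb
  refine ⟨h1, h2, tor_dg hA ht hD hC, M, hM, fun j => ?_⟩
  obtain ⟨m₀, hm₀⟩ := h3 j
  obtain ⟨m₁, hm₁⟩ := tor hY hg htr hA ht hD hC 1
  obtain ⟨m₂, hm₂⟩ := tor hY hg htr hA ht hD hC (W ^ (j * M))
  refine ⟨max m₀ (max m₁ m₂), fun m hm => ?_⟩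
  rw [ge_iff_le, max_le_iff, max_le_iff] at hm
  have h4 := hm₁ m hm.2.1
  rw [one_mul] at h4
  rw [h4, hm₂ m hm.2.2]
  exact hm₀ m hm.1

/-- **(Y1) with a torsion twist** -/
theorem y1_tw {A D : Cart Y} (hA : Ample A) {t : ℕ} (ht : 1 ≤ t) (hD : ∀ V : Cart Y, h0 (V * D ^ t) 1 = h0 V 1)
    {k₀ K₀ : Type} [Field k₀] [Field K₀] [Algebra k₀ K₀] [CharZero k₀]
    {C₀ : Mod k₀ K₀} {φ₀ : Cart Y →* Cart C₀} (h₀ : Cut Y A C₀ φ₀) : ∃ M₀ : ℕ, ∀ M ≥ M₀,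
      ∀ {k' K' : Type} [Field k'] [Field K'] [Algebra k' K'] [CharZero k'] {C : Mod k' K'} {φ : Cart Y →* Cart C},
        Cut Y (A ^ M) C φ → ∀ n ≥ 2,
          h0 (D * A ^ (M * n)) 1 = h0 (D * A ^ (M * n) * (A ^ M)⁻¹) 1 + h0 (φ (D * A ^ (M * n))) 1 := by
  obtain ⟨e, he⟩ : ∃ e : ℤ, e = dg (φ₀ A) := ⟨_, rfl⟩
  obtain ⟨χ, hχ⟩ : ∃ χ : ℤ, χ = chi C₀ := ⟨_, rfl⟩
  have hτ₀ := tor_dg hA ht hD h₀
  have he0 : 0 < e := by
    rw [he]
    exact dg_ample h₀.crv _ (h₀.amp A hA)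
  obtain ⟨n₀, hn₀⟩ := cut_eq h₀ D hA
  obtain ⟨c, hc⟩ := sum_lin (f := fun m => (h0 (D * A ^ m) 1 : ℝ)) (a := e) (b := e + χ) (n₀ := n₀) (fun n hn => by
    have h1 := hn₀ (n + 1) (by omega)
    have e1 : D * A ^ (n + 1) * A⁻¹ = D * A ^ n := by
      rw [pow_succ, ← mul_assoc, mul_inv_cancel_right]
    rw [e1, hτ₀, ← he, ← hχ] at h1
    push_cast at h1
    rw [h1]
    ring)
  refine ⟨n₀ + (|2 * χ + e| + 1).toNat, fun M hM {k' K'} _ _ _ _ {C φ} hC n hn => ?_⟩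
  have hτ := tor_dg hA ht hD hC
  have hM1 : n₀ ≤ M := by omega
  have hM2 : |2 * χ + e| + 1 ≤ (M : ℤ) := (Int.self_le_toNat _).trans (by exact_mod_cast (by omega))
  have hM3 : (1 : ℤ) ≤ M := by
    have := abs_nonneg (2 * χ + e)
    omega
  have hMr : (1 : ℝ) ≤ M := by exact_mod_cast hM3
  obtain ⟨δ, hδ⟩ : ∃ δ : ℤ, δ = dg (φ A) := ⟨_, rfl⟩
  -- the numbers of the curve
  obtain ⟨n₁, hn₁⟩ := cut_eq hC D hA
  have h1 := lin_eq (N := n₀ + n₁ + M) (a := -(e / 2 : ℝ) * M ^ 2 + (χ + e / 2) * M) (b := e * M) (a' := chi C) (b' := δ)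
    (fun m hm => by
      have h2 := hn₁ m (by omega)
      have e1 : D * A ^ m * (A ^ M)⁻¹ = D * A ^ (m - M) := by
        rw [mul_inv_eq_iff_eq_mul, mul_assoc, ← pow_add]
        congr 2
        omega
      rw [e1, hτ, ← hδ] at h2
      have h3 := hc m (by omega)
      have h4 := hc (m - M) (by omega)
      rw [Nat.cast_sub (by omega)] at h4
      rw [h3, h4] at h2
      push_cast at h2
      linarith)
  have hχ' : (chi C : ℝ) = -(e / 2 : ℝ) * M ^ 2 + (χ + e / 2) * M := h1.1.symm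
  have hδ' : δ = e * M := by
    have := h1.2
    exact_mod_cast this.symm
  have h2 : dg (φ (D * A ^ (M * n))) = M * n * δ := by
    rw [map_mul, map_pow, dg_mul hC.crv, hτ, dg_pow hC.crv, ← hδ]
    push_cast
    ring
  have hχi : 2 * chi C = - e * M ^ 2 + (2 * χ + e) * M := by
    have : (2 * chi C : ℝ) = - e * M ^ 2 + (2 * χ + e) * M := by
      rw [hχ']
      ring
    exact_mod_cast this
  have h3 := h0_eq hC.crv (φ (D * A ^ (M * n))) (by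
    rw [h2, hδ']
    have h4 : -2 * chi C = e * M ^ 2 - (2 * χ + e) * M := by linarith
    rw [h4]
    have h5 : -(2 * χ + e) < e * M := by
      have h6 := neg_abs_le (2 * χ + e)
      nlinarith
    have hn2 : (2 : ℤ) ≤ n := by exact_mod_cast hn
    have h6 : -(2 * χ + e) * M < e * M * M := mul_lt_mul_of_pos_right h5 (by linarith)
    have h7 : e * M * M * 2 ≤ e * M * M * n := mul_le_mul_of_nonneg_left hn2 (by positivity)
    nlinarith)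
  have e1 : D * A ^ (M * n) * (A ^ M)⁻¹ = D * A ^ (M * (n - 1)) := by
    rw [mul_inv_eq_iff_eq_mul, mul_assoc, ← pow_add]
    congr 2
    obtain ⟨i, rfl⟩ : ∃ i, n = i + 1 := ⟨n - 1, by omega⟩
    rw [Nat.add_sub_cancel, Nat.mul_succ]
  have hn1 : n₀ ≤ M * (n - 1) := by
    have : M * 1 ≤ M * (n - 1) := Nat.mul_le_mul_left M (by omega)
    omega
  have h4 := hc (M * n) (by
    have : M * 1 ≤ M * n := Nat.mul_le_mul_left M (by omega)
    omega)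
  have h5 := hc (M * (n - 1)) hn1
  rw [e1]
  have h6 : (h0 (D * A ^ (M * n)) 1 : ℝ) = h0 (D * A ^ (M * (n - 1))) 1 + h0 (φ (D * A ^ (M * n))) 1 := by
    have h7 : (h0 (φ (D * A ^ (M * n))) 1 : ℝ) = M * n * (e * M) + chi C := by
      have : (h0 (φ (D * A ^ (M * n))) 1 : ℝ) = ((h0 (φ (D * A ^ (M * n))) 1 : ℤ) : ℝ) := by norm_cast
      rw [this, h3, h2, hδ']
      push_cast
      ring
    rw [h4, h5, h7, hχ']
    push_cast
    rw [Nat.cast_sub (by omega)]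
    push_cast
    ring
  exact_mod_cast h6

/-- surjectivity on the generic member of a large multiple, with a torsion twist -/
theorem y1_tw_surj [CharZero k] [T0Space Y.P] (hY : IsVar Y) (hg : ∃ g, Gen Y g) (htr : Algebra.trdeg k K = 2) {A D : Cart Y}
    (hA : Ample A) {t : ℕ} (ht : 1 ≤ t) (hD : ∀ V : Cart Y, h0 (V * D ^ t) 1 = h0 V 1)
    {k₀ K₀ : Type} [Field k₀] [Field K₀] [Algebra k₀ K₀] [CharZero k₀] {C₀ : Mod k₀ K₀}
    {φ₀ : Cart Y →* Cart C₀} (h₀ : Cut Y A C₀ φ₀) : ∃ M₀ : ℕ, ∀ M ≥ M₀,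
      ∀ {k' K' : Type} [Field k'] [Field K'] [Algebra k k'] [Algebra K K'] [Algebra k' K'] [Algebra k K']
        [IsScalarTower k K K'] [IsScalarTower k k' K'] {σ : Type} [Fintype σ] {l : σ → k'} (h : BC k K k' K' l)
        {s : Option σ → K} {z : (bcM Y h).P} (hsl : gsec K' l s ≠ 0)
        (_ : SPr (bcM Y h) z (bcD hY hg h (A ^ M) * prin (bcM Y h) (gsec K' l s) hsl))
        (_ : Algebra.trdeg k' ((bcM Y h).kap z) + 1 = Algebra.trdeg k K), ∀ n ≥ 2,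
        Function.Surjective (resS (isVar_bc hY hg h) z (bcD hY hg h (D * A ^ (M * n))) 1) := by
  obtain ⟨M₀, hM₀⟩ := y1_tw hA ht hD h₀
  refine ⟨M₀, fun M hM {k' K'} _ _ _ _ _ _ _ _ {σ} _ {l} h {s z} hsl hS hz n hn => ?_⟩
  have hchar : CharZero k' := charZero_of_injective_algebraMap (algebraMap k k').injective
  exact surj_of hY hg ⟨A, hA⟩ h hsl hS (hM₀ M hM (gen_cut hY hg htr ⟨A, hA⟩ h hsl hS hz) n hn)

end Pool.Agent.H47.YP
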