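import Pool.Agent.H41.TW.Crv

/-!
# [H47 YP Gc] ABUNDANCE (MP_e49dc9_ag): the generic curve of a linear system on a surface

`Y` a projective surface over a field `k` of characteristic `0` (not algebraically closed).  `Cut Y D C φ`: `C` is an integral projective curve in the linear system of `D` (over an extension of the
ground field), `φ` is the restriction of the Cartier divisors.  `gen_cut`: the generic member `z` of a linear system `s` of `D` without base points.  `ex_cut`: a multiple of every ample divisor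
has one.
-/

set_option autoImplicit false

namespace Pool.Agent.H47.YP

open Pool.Agent.H54.RV Pool.Agent.H83.TU Pool.Agent.H83.TK Pool.Agent.H24.TK Pool.Agent.H41.TK Pool.Agent.H41.TW

variable {k K : Type} [Field k] [Field K] [Algebra k K] {Y : Mod k K}

/-- `C` is a curve in the linear system of `D`, `φ` the restriction -/
structure Cut (Y : Mod k K) (D : Cart Y) {k' K' : Type} [Field k'] [Field K'] [Algebra k' K'] (C : Mod k' K')
    (φ : Cart Y →* Cart C) : Prop where
  crv : Crv C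
  amp : ∀ E, Ample E → Ample (φ E)
  le : ∀ W : Cart Y, h0 W 1 ≤ h0 (W * D⁻¹) 1 + h0 (φ W) 1
  eq : ∀ W E : Cart Y, Ample E → ∃ n₀ : ℕ, ∀ n ≥ n₀,
    h0 (W * E ^ n) 1 = h0 (W * E ^ n * D⁻¹) 1 + h0 (φ (W * E ^ n)) 1

variable {k' K' : Type} [Field k'] [Field K'] [Algebra k k'] [Algebra K K'] [Algebra k' K'] [Algebra k K']
  [IsScalarTower k K K'] [IsScalarTower k k' K'] {σ : Type} [Fintype σ] {l : σ → k'}

theorem gen_cut [CharZero k] [T0Space Y.P] (hY : IsVar Y) (hg : ∃ g, Gen Y g) (htr : Algebra.trdeg k K = 2)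
    (hA : ∃ A : Cart Y, Ample A) (h : BC k K k' K' l) {D : Cart Y} {s : Option σ → K} {z : (bcM Y h).P}
    (hsl : gsec K' l s ≠ 0) (hS : SPr (bcM Y h) z (bcD hY hg h D * prin (bcM Y h) (gsec K' l s) hsl))
    (hz : Algebra.trdeg k' ((bcM Y h).kap z) + 1 = Algebra.trdeg k K) :
    Cut Y D (subM (isVar_bc hY hg h) z) ((resD (isVar_bc hY hg h) z).comp (bcD hY hg h)) := by
  obtain ⟨A, hA⟩ := hA
  have hV' := isVar_bc hY hg h
  have hchar : CharZero k' := charZero_of_injective_algebraMap (algebraMap k k').injective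
  have hgC : ∃ g, Gen (subM hV' z) g := ⟨_, gen_sub hV' z⟩
  have hVC := isVar_sub hV' z
  have hAC := res_ample hV' z _ (bc_ample hY hg h _ hA)
  have e1 : ∀ W : Cart Y, FiniteDimensional k' (secL (bcD hY hg h W) 1) ∧ h0 (bcD hY hg h W) 1 = h0 W 1 := fun W => by
    have : FiniteDimensional k (secL W 1) := fd hY hg hA W
    exact bc_h0 hY hg h W 1
  have e2 : ∀ W : Cart Y, FiniteDimensional k' (secL (resD hV' z (bcD hY hg h W)) 1) := fun W => fd hVC hgC hAC _
  have e3 : ∀ W : Cart Y, h0 (bcD hY hg h W ^ 1 * (bcD hY hg h D * prin (bcM Y h) (gsec K' l s) hsl)⁻¹) 1 = h0 (W * D⁻¹) 1 := by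
    intro W
    rw [h0_div_prin, pow_one, ← map_inv, ← map_mul]
    exact (e1 _).2
  refine ⟨⟨hVC, hgC, ⟨_, hAC⟩, ?_⟩, fun E hE => res_ample hV' z _ (bc_ample hY hg h _ hE), fun W => ?_, fun W E hE => ?_⟩
  · rw [htr, ← one_add_one_eq_two] at hz
    exact Cardinal.add_one_inj.1 hz
  · have := (e1 W).1
    have := e2 W
    have h1 := ex_le hV' hS (bcD hY hg h W) 1
    rw [e3, (e1 W).2] at h1
    exact h1
  · obtain ⟨n₀, hn⟩ := ser_ample hV' (bc_ample hY hg h _ hE) z (bcD hY hg h W)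
    refine ⟨n₀, fun n hn' => ?_⟩
    have h2 := hn n hn'
    have h3 : bcD hY hg h W * bcD hY hg h E ^ n = bcD hY hg h (W * E ^ n) := by
      rw [map_mul, map_pow]
    rw [h3] at h2
    have := (e1 (W * E ^ n)).1
    have := e2 (W * E ^ n)
    have h1 := ex_dim hV' hS (bcD hY hg h (W * E ^ n)) 1
    rw [e3, (e1 _).2, LinearMap.range_eq_top.2 h2, finrank_top] at h1
    exact h1

/-- a multiple of an ample divisor has a curve -/
theorem ex_cut [CharZero k] [T0Space Y.P] (hY : IsVar Y) (hg : ∃ g, Gen Y g) (htr : Algebra.trdeg k K = 2)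
    {A : Cart Y} (hA : Ample A) : ∃ (m : ℕ) (k' K' : Type) (_ : Field k') (_ : Field K') (_ : Algebra k' K') (_ : CharZero k')
      (C : Mod k' K') (φ : Cart Y →* Cart C), 1 ≤ m ∧ Cut Y (A ^ m) C φ := by
  obtain ⟨m, σ, hσ, s, hm, hs⟩ := exists_lsys hY hg hA (by
    rw [htr]
    exact two_ne_zero)
  obtain ⟨k', K', i1, i2, i3, i4, i5, i6, i7, i8, l, h⟩ := exists_bc k K σ
  obtain ⟨z, hsl, hS, hz, -⟩ := gs_main hY hg h hs
  exact ⟨m, k', _, i1, inferInstance, inferInstance, charZero_of_injective_algebraMap (algebraMap k k').injective, _, _, hm,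
    gen_cut hY hg htr ⟨A, hA⟩ h hsl hS hz⟩

end Pool.Agent.H47.YP
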