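import Pool.Agent.H47.YP.Gc
import Pool.Agent.H54.RV.B10

/-!
# [H47 YP Lsy] ABUNDANCE (MP_e49dc9_ag): linear systems without base points of `D + n J A`, `J` large

`amp_pt` at finitely many points; two sections with a transcendental quotient.
-/

set_option autoImplicit false

namespace Pool.Agent.H47.YP

open Pool.Agent.H54.RV Pool.Agent.H83.TU Pool.Agent.H83.TK Pool.Agent.H24.TK Pool.Agent.H41.TK Pool.Agent.H41.TW

variable {k K : Type} [Field k] [Field K] [Algebra k K] {Y : Mod k K}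

theorem lsys_tw [CharZero k] (hY : IsVar Y) (hg : ∃ g, Gen Y g) (htr : Algebra.trdeg k K ≠ 0) {A : Cart Y} (hA : Ample A) (D : Cart Y) :
    ∃ n J₀ : ℕ, 1 ≤ n ∧ ∀ J ≥ J₀, ∃ (σ : Type) (_ : Fintype σ) (s : Option σ → K), LSys Y (D * A ^ (n * J)) s := by
  classical
  obtain ⟨g, hgg⟩ := hg
  -- a transcendental function
  obtain ⟨f, hf⟩ : ∃ f : K, Transcendental k f := by
    by_contra hcon
    push Not at hcon
    apply htr
    rw [trdeg_eq_zero_iff]
    exact ⟨fun a => by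
      by_contra h
      exact hcon a h⟩
  obtain ⟨m₁, h1⟩ := uf_all hY A {g} f hA (fun x hx => by
    rw [Finset.mem_singleton.1 hx, hgg.top]
    exact Algebra.mem_top)
  have hp := fun x => amp_pt hY A D hA x
  choose n U N hn hU hx hr using hp
  have := hY.comp
  obtain ⟨T, hT⟩ := isCompact_univ.elim_nhds_subcover U (fun x _ => (hY.op (U x) (hU x)).mem_nhds (hx x))
  obtain ⟨n₀, hn₀⟩ : ∃ n₀, n₀ = ∏ x ∈ insert g T, n x := ⟨_, rfl⟩
  obtain ⟨J₁, hJ₁⟩ : ∃ J₁, J₁ = ∑ x ∈ insert g T, N x := ⟨_, rfl⟩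
  have hn₀1 : 1 ≤ n₀ := by
    rw [hn₀]
    exact Finset.one_le_prod' fun x _ => hn x
  -- the sections
  have key : ∀ x ∈ insert g T, ∀ J ≥ J₁, ∃ r : K, Sec (D * A ^ (n₀ * J)) 1 r ∧ nz (D * A ^ (n₀ * J)) 1 r = U x := by
    intro x hxT J hJ
    obtain ⟨c, hc⟩ : n x ∣ n₀ := by
      rw [hn₀]
      exact Finset.dvd_prod_of_mem n hxT
    have hc1 : 1 ≤ c := by
      rcases Nat.eq_zero_or_pos c with h | h
      · rw [h, mul_zero] at hc
        omega
      · exact h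
    have h2 : N x ≤ J₁ := by
      rw [hJ₁]
      exact Finset.single_le_sum (fun y _ => Nat.zero_le (N y)) hxT
    obtain ⟨r, hr1, hr2⟩ := hr x (c * J) (by nlinarith)
    have e : (A ^ n x) ^ (c * J) * D = D * A ^ (n₀ * J) := by
      rw [← pow_mul, ← mul_assoc (n x), ← hc, mul_comm]
    rw [e] at hr1 hr2
    exact ⟨r, hr1, hr2⟩
  refine ⟨n₀, J₁ + J₁ + m₁, hn₀1, fun J hJ => ?_⟩
  obtain ⟨r₁, hr₁, hr₁'⟩ := key g (Finset.mem_insert_self g T) J₁ le_rfl
  have hr₁g : Un (Y.O g) (r₁ * (D * A ^ (n₀ * J₁)).eq g ^ 1) := by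
    have h2 : g ∈ nz (D * A ^ (n₀ * J₁)) 1 r₁ := by
      rw [hr₁']
      exact hx g
    exact h2
  obtain ⟨s₀, hs0, hs0f, hgn⟩ := h1 (n₀ * (J - J₁)) (by
    have h2 : 1 * (J - J₁) ≤ n₀ * (J - J₁) := Nat.mul_le_mul_right _ hn₀1
    omega)
  have hgn' : Un (Y.O g) (s₀ * A.eq g ^ (n₀ * (J - J₁))) := hgn g (Finset.mem_singleton_self g)
  have hs00 : r₁ * s₀ ≠ 0 := by
    refine mul_ne_zero ?_ ?_
    · rintro rfl
      exact hr₁g.1 (zero_mul _)
    · rintro rfl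
      exact hgn'.1 (zero_mul _)
  have hsec : ∀ a : K, Sec A (n₀ * (J - J₁)) a → Sec (D * A ^ (n₀ * J)) 1 (r₁ * a) := by
    intro a ha x
    have h2 := (Y.O x).mul_mem (hr₁ x) (ha x)
    have e : r₁ * (D * A ^ (n₀ * J₁)).eq x ^ 1 * (a * A.eq x ^ (n₀ * (J - J₁))) =
        r₁ * a * (D * A ^ (n₀ * J)).eq x ^ 1 := by
      have e2 : n₀ * J = n₀ * J₁ + n₀ * (J - J₁) := by
        rw [← Nat.mul_add]
        congr 1
        omega
      rw [pow_one, pow_one, mul_eq, mul_eq, pow_eq, pow_eq, e2, pow_add]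
      ring
    rwa [e] at h2
  have hch : ∀ x : {x // x ∈ T}, ∃ r : K, Sec (D * A ^ (n₀ * J)) 1 r ∧ nz (D * A ^ (n₀ * J)) 1 r = U x.1 := fun x =>
    key x.1 (Finset.mem_insert_of_mem x.2) J (by omega)
  choose r hr1 hr2 using hch
  refine ⟨{x // x ∈ T} ⊕ Bool, inferInstance,
    fun i => match i with
      | none => 0
      | some (Sum.inl x) => r x
      | some (Sum.inr true) => r₁ * s₀
      | some (Sum.inr false) => r₁ * (s₀ * f), ?_, ?_, ?_⟩
  · intro i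
    match i with
    | none => exact (secL _ 1).zero_mem
    | some (Sum.inl x) => exact hr1 x
    | some (Sum.inr true) => exact hsec s₀ hs0
    | some (Sum.inr false) => exact hsec (s₀ * f) hs0f
  · intro x
    have h2 := hT.2 (Set.mem_univ x)
    rw [Set.mem_iUnion₂] at h2
    obtain ⟨y, hy, hxy⟩ := h2
    refine ⟨some (Sum.inl ⟨y, hy⟩), ?_⟩
    have h3 : x ∈ nz (D * A ^ (n₀ * J)) 1 (r ⟨y, hy⟩) := by
      rw [hr2]
      exact hxy
    have h4 : Un (Y.O x) (r ⟨y, hy⟩ * (D * A ^ (n₀ * J)).eq x ^ 1) := h3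
    rwa [pow_one] at h4
  · refine ⟨some (Sum.inr false), some (Sum.inr true), hs00, ?_⟩
    show Transcendental k (r₁ * (s₀ * f) / (r₁ * s₀))
    rw [← mul_assoc, mul_div_cancel_left₀ _ hs00]
    exact hf

/-- curves in the linear system of `D + m A` -/
theorem ex_cut_tw [CharZero k] [T0Space Y.P] (hY : IsVar Y) (hg : ∃ g, Gen Y g) (htr : Algebra.trdeg k K = 2)
    {A : Cart Y} (hA : Ample A) (D : Cart Y) : ∃ (m : ℕ) (k' K' : Type) (_ : Field k') (_ : Field K') (_ : Algebra k' K')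
      (_ : CharZero k') (C : Mod k' K') (φ : Cart Y →* Cart C), 1 ≤ m ∧ Cut Y (D * A ^ m) C φ := by
  obtain ⟨n, J₀, hn, hJ⟩ := lsys_tw hY hg (by
    rw [htr]
    exact two_ne_zero) hA D
  obtain ⟨σ, hσ, s, hs⟩ := hJ (J₀ + 1) (by omega)
  obtain ⟨k', K', i1, i2, i3, i4, i5, i6, i7, i8, l, h⟩ := exists_bc k K σ
  obtain ⟨z, hsl, hS, hz, -⟩ := gs_main hY hg h hs
  exact ⟨n * (J₀ + 1), k', _, i1, inferInstance, inferInstance, charZero_of_injective_algebraMap (algebraMap k k').injective, _, _,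
    Nat.mul_pos hn (Nat.succ_pos _), gen_cut hY hg htr ⟨A, hA⟩ h hsl hS hz⟩

end Pool.Agent.H47.YP
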