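import Pool.Agent.H47.YP.Gc
import Pool.Agent.H41.TK.DG

/-!
# [H47 YP Phi] ABUNDANCE (MP_e49dc9_ag): the dimensions of the spaces of sections of `a W + m A` on a surface

`Y` a projective surface over a field of characteristic `0`, `A + i W` ample for all `i ≥ 0`; `Γ` a curve in the linear system of `A`, `d₀ = deg_Γ A`, `d = deg_Γ W`.

`phi`: there are `M ≥ 1` and `γ₁`, `γ₂` with
(1) `h⁰(j M W + m A) = h⁰(m A) + j M m d + γ₂ j² + γ₁ j` for `m ≥ m₀(j)`;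
(2) `h⁰(t (A + i M W)) = (d₀ / 2 + i M d + γ₂ i²) t² + (χ(Γ) + d₀ / 2 + γ₁ i) t + c` for `t = N s`, `s ≥ s₀`, where `N`, `c`, `s₀` depend on `i`.

PROOF.  Restriction to `Γ`, to a curve in the linear system of `M (A + W)` and to a curve in that of `N (A + i M W)` (`ex_cut`); each difference of dimensions is a degree plus a constant far away
in any ample direction (`cut_eq`).
`asy`: if `|h⁰(t (A + i W)) - (α + β i) t²| ≤ ..` (bounds above with any linear term, below with a linear term `- κ t` independent of `i`) then `γ₂ = 0 ≤ γ₁`.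
-/

set_option autoImplicit false

namespace Pool.Agent.H47.YP

open Pool.Agent.H54.RV Pool.Agent.H83.TU Pool.Agent.H83.TK Pool.Agent.H24.TK Pool.Agent.H41.TK Pool.Agent.H41.TW

/-- a sequence with linear differences -/
theorem sum_lin {f : ℕ → ℝ} {a b : ℝ} {n₀ : ℕ} (h : ∀ n ≥ n₀, f (n + 1) = f n + (a * n + b)) :
    ∃ c : ℝ, ∀ n ≥ n₀, f n = a / 2 * n ^ 2 + (b - a / 2) * n + c := by
  refine ⟨f n₀ - (a / 2 * n₀ ^ 2 + (b - a / 2) * n₀), fun n hn => ?_⟩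
  induction n, hn using Nat.le_induction with
  | base => ring
  | succ n hn ih =>
    rw [h n hn, ih]
    push_cast
    ring

/-- two linear functions which agree for large `n` -/
theorem lin_eq {a b a' b' : ℝ} {N : ℕ} (h : ∀ n : ℕ, N ≤ n → a + n * b = a' + n * b') : a = a' ∧ b = b' := by
  have h1 := h N le_rfl
  have h2 := h (N + 1) (Nat.le_succ N)
  push_cast at h2
  have h3 : b = b' := by linarith
  refine ⟨?_, h3⟩
  rw [h3] at h1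
  linarith

variable {k K : Type} [Field k] [Field K] [Algebra k K] {Y : Mod k K}

/-- the difference of the dimensions far away in an ample direction -/
theorem cut_eq {k' K' : Type} [Field k'] [Field K'] [Algebra k' K'] [CharZero k'] {C : Mod k' K'} {φ : Cart Y →* Cart C}
    {D : Cart Y} (hC : Cut Y D C φ) (W : Cart Y) {E : Cart Y} (hE : Ample E) : ∃ n₀ : ℕ, ∀ n ≥ n₀,
      (h0 (W * E ^ n) 1 : ℝ) = h0 (W * E ^ n * D⁻¹) 1 + (dg (φ W) + n * dg (φ E) + chi C) := by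
  obtain ⟨n₀, hn₀⟩ := hC.eq W E hE
  have h1 := dg_ample hC.crv _ (hC.amp E hE)
  refine ⟨max n₀ (- 2 * chi C - dg (φ W) + 1).toNat, fun n hn => ?_⟩
  rw [ge_iff_le, max_le_iff] at hn
  have h2 : dg (φ (W * E ^ n)) = dg (φ W) + n * dg (φ E) := by
    rw [map_mul, map_pow, dg_mul hC.crv, dg_pow hC.crv]
  have h3 : -2 * chi C - dg (φ W) + 1 ≤ n := (Int.self_le_toNat _).trans (by exact_mod_cast hn.2)
  have h4 := h0_eq hC.crv (φ (W * E ^ n)) (by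
    rw [h2]
    nlinarith)
  have h5 := hn₀ n hn.1
  have h6 : (h0 (φ (W * E ^ n)) 1 : ℝ) = ((h0 (φ (W * E ^ n)) 1 : ℤ) : ℝ) := by norm_cast
  rw [h5]
  push_cast
  rw [h6, h4, h2]
  push_cast
  ring

theorem phi [CharZero k] [T0Space Y.P] (hY : IsVar Y) (hg : ∃ g, Gen Y g) (htr : Algebra.trdeg k K = 2)
    {A W : Cart Y} (hAW : ∀ i : ℕ, Ample (A * W ^ i)) {k' K' : Type} [Field k'] [Field K'] [Algebra k' K'] [CharZero k']
    {C : Mod k' K'} {φ : Cart Y →* Cart C} (hC : Cut Y A C φ) :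
    ∃ (M : ℕ) (γ₁ γ₂ : ℝ), 1 ≤ M ∧
      (∀ j : ℕ, ∃ m₀ : ℕ, ∀ m ≥ m₀, (h0 (W ^ (j * M) * A ^ m) 1 : ℝ) =
        h0 (A ^ m) 1 + j * M * m * dg (φ W) + γ₂ * j ^ 2 + γ₁ * j) ∧
      ∀ i : ℕ, ∃ (N s₀ : ℕ) (c : ℝ), 1 ≤ N ∧ ∀ s ≥ s₀, (h0 ((A * W ^ (i * M)) ^ (N * s)) 1 : ℝ) =
        (dg (φ A) / 2 + i * M * dg (φ W) + γ₂ * i ^ 2) * (N * s) ^ 2 + (chi C + dg (φ A) / 2 + γ₁ * i) * (N * s) + c := by
  have hA : Ample A := by simpa using hAW 0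
  obtain ⟨d₀, hd₀⟩ : ∃ d₀ : ℝ, d₀ = dg (φ A) := ⟨_, rfl⟩
  obtain ⟨d, hd⟩ : ∃ d : ℝ, d = dg (φ W) := ⟨_, rfl⟩
  obtain ⟨b, hb⟩ : ∃ b : ℝ, b = chi C + d₀ / 2 := ⟨_, rfl⟩
  rw [← hd₀, ← hd, ← hb]
  -- the direction `A`
  have f1 : ∀ a : ℕ, ∃ (e : ℝ) (m₀ : ℕ), ∀ m ≥ m₀, (h0 (W ^ a * A ^ m) 1 : ℝ) = d₀ / 2 * m ^ 2 + (b + a * d) * m + e := by
    intro a
    obtain ⟨n₀, hn₀⟩ := cut_eq hC (W ^ a) hA
    obtain ⟨c, hc⟩ := sum_lin (f := fun m => (h0 (W ^ a * A ^ m) 1 : ℝ)) (a := d₀) (b := d₀ + a * d + chi C) (n₀ := n₀)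
      (fun n hn => by
        have h1 := hn₀ (n + 1) (by omega)
        have e1 : W ^ a * A ^ (n + 1) * A⁻¹ = W ^ a * A ^ n := by
          rw [pow_succ, ← mul_assoc, mul_inv_cancel_right]
        rw [e1, map_pow, dg_pow hC.crv] at h1
        push_cast at h1
        rw [← hd₀, ← hd] at h1
        rw [h1]
        ring)
    refine ⟨c, n₀, fun m hm => ?_⟩
    rw [hc m hm, hb]
    ring
  choose e he using f1
  -- the direction `A + W`
  obtain ⟨M, k₁, K₁, _, _, _, _, C₁, φ₁, hM, hC₁⟩ := ex_cut hY hg htr (A := A * W) (by simpa using hAW 1)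
  obtain ⟨p, q, hpq⟩ : ∃ p q : ℝ, ∀ a : ℕ, e (a + M) = e a + (a * p + q) := by
    obtain ⟨dA, hdA⟩ : ∃ x : ℝ, x = dg (φ₁ A) := ⟨_, rfl⟩
    obtain ⟨dW, hdW⟩ : ∃ x : ℝ, x = dg (φ₁ W) := ⟨_, rfl⟩
    refine ⟨dW - d * M, M * dW + M * dA + chi C₁ - d₀ * M ^ 2 / 2 - b * M - d * M ^ 2, fun a => ?_⟩
    obtain ⟨n₀, hn₀⟩ := cut_eq hC₁ (W ^ (a + M)) hA
    obtain ⟨m₁, hm₁⟩ := he (a + M)
    obtain ⟨m₂, hm₂⟩ := he a
    have h1 := lin_eq (N := max n₀ (max m₁ m₂)) (a := d₀ / 2 * M ^ 2 + (b + (a + M) * d) * M + e (a + M) - e a)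
      (b := d₀ * M + M * d) (a' := (a + M) * dW + M * dA + chi C₁) (b' := dA) (fun m hm => by
      rw [max_le_iff, max_le_iff] at hm
      have h1 := hn₀ (m + M) (by omega)
      have h2 := hm₁ (m + M) (by omega)
      have h3 := hm₂ m (by omega)
      have e1 : W ^ (a + M) * A ^ (m + M) * ((A * W) ^ M)⁻¹ = W ^ a * A ^ m := by
        rw [mul_inv_eq_iff_eq_mul, mul_pow, pow_add, pow_add, mul_mul_mul_comm, mul_comm (W ^ M)]
      rw [e1, map_pow, dg_pow hC₁.crv, h2, h3] at h1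
      push_cast at h1
      rw [← hdA, ← hdW] at h1
      linarith)
    have h2 := h1.1
    linarith
  have hE : ∀ j : ℕ, e (j * M) = M * p / 2 * j ^ 2 + (q - M * p / 2) * j + e 0 := by
    intro j
    induction j with
    | zero => simp
    | succ j ih =>
      rw [Nat.succ_mul, hpq, ih]
      push_cast
      ring
  refine ⟨M, q - M * p / 2, M * p / 2, hM, fun j => ?_, fun i => ?_⟩
  · obtain ⟨m₁, hm₁⟩ := he (j * M)
    obtain ⟨m₂, hm₂⟩ := he 0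
    refine ⟨max m₁ m₂, fun m hm => ?_⟩
    rw [ge_iff_le, max_le_iff] at hm
    have h1 := hm₂ m hm.2
    rw [pow_zero, one_mul] at h1
    rw [hm₁ m hm.1, h1, hE]
    push_cast
    ring
  -- the direction `A + i M W`
  obtain ⟨V, hV⟩ : ∃ V, V = A * W ^ (i * M) := ⟨_, rfl⟩
  have hVa : Ample V := by rw [hV]; exact hAW _
  rw [← hV]
  obtain ⟨N, k₂, K₂, _, _, _, _, C₂, φ₂, hN, hC₂⟩ := ex_cut hY hg htr hVa
  obtain ⟨δA, hδA⟩ : ∃ x : ℝ, x = dg (φ₂ A) := ⟨_, rfl⟩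
  obtain ⟨δV, hδV⟩ : ∃ x : ℝ, x = dg (φ₂ V) := ⟨_, rfl⟩
  obtain ⟨γ₂, hγ₂⟩ : ∃ x : ℝ, x = M * p / 2 := ⟨_, rfl⟩
  obtain ⟨γ₁, hγ₁⟩ : ∃ x : ℝ, x = q - M * p / 2 := ⟨_, rfl⟩
  rw [← hγ₁, ← hγ₂]
  rw [← hγ₁, ← hγ₂] at hE
  have hNr : (1 : ℝ) ≤ N := by exact_mod_cast hN
  -- the numbers of the curve
  have g1 : ∀ s : ℕ, d₀ * (N ^ 2 * (2 * s + 1)) / 2 + b * N + M * d * i * (N ^ 2 * (2 * s + 1)) + γ₂ * (N ^ 2 * i ^ 2 * (2 * s + 1)) +
      γ₁ * N * i = N * (s + 1) * δV + chi C₂ := by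
    intro s
    obtain ⟨n₀, hn₀⟩ := cut_eq hC₂ (V ^ (N * (s + 1))) hA
    obtain ⟨m₁, hm₁⟩ := he (N * (s + 1) * i * M)
    obtain ⟨m₂, hm₂⟩ := he (N * s * i * M)
    have hVp : ∀ t n : ℕ, V ^ t * A ^ n = W ^ (t * i * M) * A ^ (t + n) := by
      intro t n
      rw [hV, mul_pow, ← pow_mul, pow_add, show i * M * t = t * i * M by ring, mul_comm (A ^ t), mul_assoc]
    have h1 := lin_eq (N := max n₀ (max m₁ m₂))
      (a := d₀ * (N ^ 2 * (2 * s + 1)) / 2 + b * N + M * d * i * (N ^ 2 * (2 * s + 1)) + γ₂ * (N ^ 2 * i ^ 2 * (2 * s + 1)) +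
        γ₁ * N * i) (b := d₀ * N + M * d * N * i) (a' := N * (s + 1) * δV + chi C₂) (b' := δA) (fun n hn => by
      rw [max_le_iff, max_le_iff] at hn
      have h1 := hn₀ n (by omega)
      have h2 := hm₁ (N * (s + 1) + n) (by omega)
      have h3 := hm₂ (N * s + n) (by omega)
      have e1 : V ^ (N * (s + 1)) * A ^ n * (V ^ N)⁻¹ = V ^ (N * s) * A ^ n := by
        rw [mul_inv_eq_iff_eq_mul, Nat.mul_succ, pow_add, mul_right_comm]
      rw [e1, map_pow, dg_pow hC₂.crv, hVp, hVp, h2, h3, hE, hE] at h1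
      push_cast at h1
      rw [← hδA, ← hδV] at h1
      linarith)
    exact h1.1
  have g2 := lin_eq (N := 0) (a := d₀ * N ^ 2 / 2 + b * N + M * d * i * N ^ 2 + γ₂ * (N ^ 2 * i ^ 2) + γ₁ * N * i)
    (b := d₀ * N ^ 2 + 2 * (M * d * i * N ^ 2) + 2 * (γ₂ * (N ^ 2 * i ^ 2))) (a' := N * δV + chi C₂) (b' := N * δV) (fun s _ => by
    have := g1 s
    linarith)
  -- the multiples of `V`
  obtain ⟨n₀, hn₀⟩ := cut_eq hC₂ 1 hVa
  obtain ⟨c, hc⟩ := sum_lin (f := fun s => (h0 (V ^ (N * s)) 1 : ℝ)) (a := N * δV) (b := N * δV + chi C₂) (n₀ := n₀)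
    (fun s hs => by
      have h1 := hn₀ (N * (s + 1)) (by nlinarith)
      have e1 : (1 : Cart Y) * V ^ (N * (s + 1)) * (V ^ N)⁻¹ = V ^ (N * s) := by
        rw [mul_inv_eq_iff_eq_mul, Nat.mul_succ, pow_add, one_mul]
      rw [e1, one_mul, map_one, dg_one] at h1
      push_cast at h1
      rw [← hδV] at h1
      rw [h1]
      ring)
  refine ⟨N, n₀, c, hN, fun s hs => ?_⟩
  have h1 := hc s hs
  have h2 : (N * δV + chi C₂ - N * δV / 2 : ℝ) = (b + γ₁ * i) * N := by linarith [g2.1, g2.2]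
  have h3 : (N * δV / 2 : ℝ) = (d₀ / 2 + i * M * d + γ₂ * i ^ 2) * N ^ 2 := by linarith [g2.2]
  rw [h1, h2, h3]
  ring

/-- a polynomial of degree two which is bounded -/
private theorem quad_bd {a b C : ℝ} {N s₀ : ℕ} (hN : 1 ≤ N) (h : ∀ s : ℕ, s₀ ≤ s → a * (N * s) ^ 2 ≤ C * (N * s) + b) : a ≤ 0 := by
  by_contra hcon
  push Not at hcon
  obtain ⟨n, hn⟩ := exists_nat_gt ((|C| + |b| + 1) / a)
  rw [div_lt_iff₀ hcon] at hn
  have h1 := h (max s₀ (max n 1)) (le_max_left _ _)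
  obtain ⟨x, hx⟩ : ∃ x : ℝ, x = N * ((max s₀ (max n 1) : ℕ) : ℝ) := ⟨_, rfl⟩
  rw [← hx] at h1
  have hNr : (1 : ℝ) ≤ N := by exact_mod_cast hN
  have h2 : ((max n 1 : ℕ) : ℝ) ≤ ((max s₀ (max n 1) : ℕ) : ℝ) := by exact_mod_cast le_max_right _ _
  have h3 : (n : ℝ) ≤ ((max n 1 : ℕ) : ℝ) := by exact_mod_cast le_max_left _ _
  have h4 : (1 : ℝ) ≤ ((max n 1 : ℕ) : ℝ) := by exact_mod_cast le_max_right _ _
  have h5 : (n : ℝ) ≤ x := by rw [hx]; nlinarith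
  have h6 : 1 ≤ x := by rw [hx]; nlinarith
  have h7 : (|C| + |b| + 1) * x < a * x * x := by
    refine mul_lt_mul_of_pos_right ?_ (by linarith)
    have : (n : ℝ) * a ≤ x * a := mul_le_mul_of_nonneg_right h5 hcon.le
    linarith
  have h8 : C * x ≤ |C| * x := mul_le_mul_of_nonneg_right (le_abs_self C) (by linarith)
  have h9 : b ≤ |b| * x := by nlinarith [le_abs_self b, abs_nonneg b]
  nlinarith

/-- **the asymptotic inequality**: from bounds for `h⁰(t (A + i W))` -/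
theorem asy [CharZero k] [T0Space Y.P] (hY : IsVar Y) (hg : ∃ g, Gen Y g) (htr : Algebra.trdeg k K = 2)
    {A W : Cart Y} (hAW : ∀ i : ℕ, Ample (A * W ^ i)) {k' K' : Type} [Field k'] [Field K'] [Algebra k' K'] [CharZero k']
    {C : Mod k' K'} {φ : Cart Y →* Cart C} (hC : Cut Y A C φ) {α β κ : ℝ}
    (hub : ∀ i : ℕ, ∃ B : ℝ, ∃ t₀ : ℕ, ∀ t ≥ t₀, (h0 ((A * W ^ i) ^ t) 1 : ℝ) ≤ (α + i * β) * t ^ 2 + B * t + B)
    (hlb : ∀ i : ℕ, ∃ B : ℝ, ∃ t₀ : ℕ, ∀ t ≥ t₀, (α + i * β) * t ^ 2 - κ * t - B ≤ (h0 ((A * W ^ i) ^ t) 1 : ℝ)) :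
    (dg (φ A) : ℝ) = 2 * α ∧ (dg (φ W) : ℝ) = β ∧ ∃ M : ℕ, 1 ≤ M ∧ ∀ j : ℕ, ∃ m₀ : ℕ, ∀ m ≥ m₀,
      (h0 (A ^ m) 1 : ℝ) + j * M * m * dg (φ W) ≤ h0 (W ^ (j * M) * A ^ m) 1 := by
  obtain ⟨M, γ₁, γ₂, hM, h1, h2⟩ := phi hY hg htr hAW hC
  obtain ⟨d₀, hd₀⟩ : ∃ d₀ : ℝ, d₀ = dg (φ A) := ⟨_, rfl⟩
  obtain ⟨d, hd⟩ : ∃ d : ℝ, d = dg (φ W) := ⟨_, rfl⟩
  obtain ⟨b, hb⟩ : ∃ b : ℝ, b = chi C + d₀ / 2 := ⟨_, rfl⟩
  rw [← hd] at h1
  rw [← hd₀, ← hd, ← hb] at h2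
  rw [← hd₀, ← hd]
  have hMr : (1 : ℝ) ≤ M := by exact_mod_cast hM
  -- the coefficients of `t ^ 2`
  have h3 : ∀ i : ℕ, d₀ / 2 + i * M * d + γ₂ * i ^ 2 = α + i * M * β ∧ -κ ≤ b + γ₁ * i := by
    intro i
    obtain ⟨N, s₀, c, hN, h3⟩ := h2 i
    obtain ⟨B, t₁, hB⟩ := hub (i * M)
    obtain ⟨B', t₂, hB'⟩ := hlb (i * M)
    have hNr : (1 : ℝ) ≤ N := by exact_mod_cast hN
    have hs : ∀ s : ℕ, max s₀ (max t₁ t₂) ≤ s → s₀ ≤ s ∧ t₁ ≤ N * s ∧ t₂ ≤ N * s := by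
      intro s hs
      rw [max_le_iff, max_le_iff] at hs
      exact ⟨hs.1, by nlinarith, by nlinarith⟩
    have h4 : d₀ / 2 + i * M * d + γ₂ * i ^ 2 - (α + i * M * β) ≤ 0 := by
      refine quad_bd (N := N) (s₀ := max s₀ (max t₁ t₂)) (C := B - (b + γ₁ * i)) (b := B - c) hN fun s hs' => ?_
      obtain ⟨a1, a2, a3⟩ := hs s hs'
      have h5 := h3 s a1
      have h6 := hB (N * s) a2
      push_cast at h6
      linarith
    have h5 : (α + i * M * β) - (d₀ / 2 + i * M * d + γ₂ * i ^ 2) ≤ 0 := by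
      refine quad_bd (N := N) (s₀ := max s₀ (max t₁ t₂)) (C := κ + (b + γ₁ * i)) (b := B' + c) hN fun s hs' => ?_
      obtain ⟨a1, a2, a3⟩ := hs s hs'
      have h5 := h3 s a1
      have h6 := hB' (N * s) a3
      push_cast at h6
      linarith
    have h6 : d₀ / 2 + i * M * d + γ₂ * i ^ 2 = α + i * M * β := by linarith
    refine ⟨h6, ?_⟩
    by_contra hcon
    push Not at hcon
    obtain ⟨n, hn⟩ := exists_nat_gt ((|B'| + |c|) / (-κ - (b + γ₁ * i)))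
    rw [div_lt_iff₀ (by linarith)] at hn
    obtain ⟨a1, a2, a3⟩ := hs (max (max s₀ (max t₁ t₂)) n) (le_max_left _ _)
    have h7 := h3 _ a1
    have h8 := hB' _ a3
    rw [h6] at h7
    obtain ⟨x, hx⟩ : ∃ x : ℝ, x = N * ((max (max s₀ (max t₁ t₂)) n : ℕ) : ℝ) := ⟨_, rfl⟩
    have h9 : (n : ℝ) ≤ ((max (max s₀ (max t₁ t₂)) n : ℕ) : ℝ) := by exact_mod_cast le_max_right _ _
    have h10 : (n : ℝ) ≤ x := by rw [hx]; nlinarith [Nat.cast_nonneg (α := ℝ) n]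
    push_cast at h8
    push_cast at h7 hx
    rw [← hx] at h7 h8
    have h11 : x * (-κ - (b + γ₁ * i)) ≤ B' + c := by nlinarith
    have h12 := le_abs_self B'
    have h13 := le_abs_self c
    have h14 : (n : ℝ) * (-κ - (b + γ₁ * i)) ≤ x * (-κ - (b + γ₁ * i)) := mul_le_mul_of_nonneg_right h10 (by linarith)
    linarith
  have e0 := (h3 0).1
  have e1 := (h3 1).1
  have e2 := (h3 2).1
  push_cast at e0 e1 e2
  have hγ₂ : γ₂ = 0 := by linarith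
  have hd₀' : d₀ = 2 * α := by linarith
  have hd' : d = β := by
    have h4 : (M : ℝ) * (d - β) = 0 := by
      rw [hγ₂] at e1
      linarith
    rcases mul_eq_zero.1 h4 with h5 | h5
    · linarith
    · linarith
  have hγ₁ : 0 ≤ γ₁ := by
    by_contra hcon
    push Not at hcon
    obtain ⟨n, hn⟩ := exists_nat_gt ((κ + b) / -γ₁)
    rw [div_lt_iff₀ (by linarith)] at hn
    have := (h3 n).2
    linarith
  refine ⟨hd₀', hd', M, hM, fun j => ?_⟩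
  obtain ⟨m₀, hm₀⟩ := h1 j
  refine ⟨m₀, fun m hm => ?_⟩
  rw [hm₀ m hm, hγ₂]
  have : 0 ≤ γ₁ * j := by positivity
  linarith

end Pool.Agent.H47.YP
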